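import Pool.Agent.Run7.h288.SR.Exist

/-!
# Schmidt rank of multilinear forms over a field and over its algebraic closure: the answer is no

For every prime `p` there is one field `K` of characteristic `p`, namely
`F_p (X_0, X_1, X_2, …)`, such that for every degree `d ≥ 3` the Schmidt rank over `K` of
multilinear polynomials of degree `d` is not bounded by a constant times the Schmidt rank over the
algebraic closure of `K`.
-/

set_option autoImplicit false

namespace Pool.Agent.Results.MP_521cd7_ag.ImperfectFields

open MvPolynomial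

/-- `P`, a polynomial in `d` blocks of variables indexed by `ι`, is multilinear: every monomial
has degree one in every block.  So `P` is a multilinear form on `V_1 × … × V_d`, `V_i = R ^ ι`. -/
def IsMultilinear {R : Type} [CommRing R] {d : ℕ} {ι : Type} [Fintype ι]
    (P : MvPolynomial (Fin d × ι) R) : Prop :=
  ∀ m ∈ P.support, ∀ i : Fin d, ∑ b : ι, m (i, b) = 1

/-- The Schmidt rank `r_R(P)` of a polynomial `P` of degree `d` with coefficients in `R`: the
least `r` such that `P` is a sum of `r` products of two polynomials of degree less than `d` with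
coefficients in `R`. -/
noncomputable def schmidtRank {R : Type} [CommRing R] {σ : Type} (d : ℕ)
    (P : MvPolynomial σ R) : ℕ :=
  sInf {r : ℕ | ∃ Q S : Fin r → MvPolynomial σ R,
    (∀ i, (Q i).totalDegree < d ∧ (S i).totalDegree < d) ∧ P = ∑ i, Q i * S i}

/-- For every prime `p` there is a field `K` of characteristic `p` such that for every `d ≥ 3`
and every real `κ` there is a multilinear polynomial `P` of degree `d` over `K` with
`r_K(P) > κ r_{K̄}(P)`, `K̄` the algebraic closure of `K`. -/
theorem result (p : ℕ) (hp : p.Prime) :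
    ∃ (K : Type) (_ : Field K), CharP K p ∧ ∀ d : ℕ, 3 ≤ d → ∀ κ : ℝ,
      ∃ (ι : Type) (_ : Fintype ι) (P : MvPolynomial (Fin d × ι) K),
        IsMultilinear P ∧ P.totalDegree = d ∧
        κ * (schmidtRank d (map (algebraMap K (AlgebraicClosure K)) P) : ℝ) <
          (schmidtRank d P : ℝ) := by
  have : Fact p.Prime := ⟨hp⟩
  refine ⟨Run7.h288.SR.KK p, inferInstance, inferInstance, fun d hd κ => ?_⟩
  obtain ⟨ι, hι, P, r, hP, hr, hlow⟩ := Run7.h288.SR.main p d hd (max κ 1)
  -- the set over `K` is not empty
  have hne : P ≠ 0 := by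
    intro h0
    have h1 : Run7.h288.SR.SumProd d 0 P :=
      ⟨fun i => i.elim0, fun i => i.elim0, fun i => i.elim0, by rw [h0]; simp⟩
    have h2 := hlow 0 h1
    have h3 : (0 : ℝ) ≤ max κ 1 * r := by positivity
    simp only [Nat.cast_zero] at h2
    linarith
  have hdeg : P.totalDegree = d := Run7.h288.SR.totalDegree_multilinear P hP hne
  refine ⟨ι, hι, P, hP, hdeg, ?_⟩
  have hset : {r : ℕ | ∃ Q S : Fin r → MvPolynomial (Fin d × ι) (Run7.h288.SR.KK p),
      (∀ i, (Q i).totalDegree < d ∧ (S i).totalDegree < d) ∧ P = ∑ i, Q i * S i}.Nonempty := by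
    exact Run7.h288.SR.exists_sumProd (by omega) P hP
  have h1 : Run7.h288.SR.SumProd d (schmidtRank d P) P := Nat.sInf_mem hset
  have h2 := hlow _ h1
  have h3 : schmidtRank d (map (algebraMap (Run7.h288.SR.KK p)
      (AlgebraicClosure (Run7.h288.SR.KK p))) P) ≤ r := Nat.sInf_le hr
  have h4 : ((schmidtRank d (map (algebraMap (Run7.h288.SR.KK p)
      (AlgebraicClosure (Run7.h288.SR.KK p))) P) : ℕ) : ℝ) ≤ r := by exact_mod_cast h3
  calc κ * ((schmidtRank d (map (algebraMap (Run7.h288.SR.KK p)
      (AlgebraicClosure (Run7.h288.SR.KK p))) P) : ℕ) : ℝ)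
      ≤ max κ 1 * ((schmidtRank d (map (algebraMap (Run7.h288.SR.KK p)
      (AlgebraicClosure (Run7.h288.SR.KK p))) P) : ℕ) : ℝ) :=
        mul_le_mul_of_nonneg_right (le_max_left κ 1) (by positivity)
    _ ≤ max κ 1 * r := mul_le_mul_of_nonneg_left h4 (by positivity)
    _ < _ := h2

end Pool.Agent.Results.MP_521cd7_ag.ImperfectFields
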